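import Mathlib
import Pool.Agent.Lib.MP_099f24_an.SD.Count
import Pool.Agent.Lib.MP_099f24_an.SD.Ode

/-!
# Zero gradient elements, part 1: the class independent hypotheses and the density argument
-/

namespace Pool.Agent.MP099f24

open MeasureTheory Filter Topology Set Metric
open scoped ENNReal

/-- The class independent hypotheses on a closed set which minimises length in the sense needed for
elements with zero gradient. -/
structure ZGData (K : Set ℂ) : Prop where
  closed : IsClosed K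
  up : ∃ C : ℝ, ∀ x r, 0 < r → (μH[1] : Measure ℂ) (K ∩ ball x r) ≤ ENNReal.ofReal (C * r)
  low : ∀ x ∈ K, ∀ r : ℝ, 0 < r → ENNReal.ofReal (2 * r) ≤ (μH[1] : Measure ℂ) (K ∩ ball x r)
  two : ∀ x ∈ K, ∀ r : ℝ, 0 < r → (K ∩ sphere x r).Finite → 2 ≤ (K ∩ sphere x r).ncard
  net2 : ∀ x ∈ K, ∀ r : ℝ, 0 < r → ∀ p q : ℂ, p ≠ q → K ∩ sphere x r = {p, q} →
    (μH[1] : Measure ℂ) (K ∩ ball x r) ≤ ENNReal.ofReal (dist p q)
  net3 : ∀ x ∈ K, ∀ r : ℝ, 0 < r → ∀ p q s : ℂ, p ≠ q → q ≠ s → p ≠ s →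
    K ∩ sphere x r = {p, q, s} → ∀ o ∈ ball x r,
    (μH[1] : Measure ℂ) (K ∩ ball x r) ≤ ENNReal.ofReal (dist o p + dist o q + dist o s)
  net4 : ∀ x ∈ K, ∀ r : ℝ, 0 < r → (K ∩ sphere x r).Finite → 4 ≤ (K ∩ sphere x r).ncard →
    (μH[1] : Measure ℂ) (K ∩ ball x r) ≤
      ENNReal.ofReal ((((K ∩ sphere x r).ncard : ℝ) - 1 / 20) * r)

/-- The length of `K` in the ball. -/
noncomputable def zl (K : Set ℂ) (x : ℂ) (r : ℝ) : ℝ := ((μH[1] : Measure ℂ) (K ∩ ball x r)).toReal

variable {K : Set ℂ}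

theorem zg_lt_top (h : ZGData K) (x : ℂ) (r : ℝ) : (μH[1] : Measure ℂ) (K ∩ ball x r) < ⊤ := by
  rcases le_or_gt r 0 with hr | hr
  · rw [ball_eq_empty.2 hr]
    simp
  · obtain ⟨C, hC⟩ := h.up
    exact (hC x r hr).trans_lt ENNReal.ofReal_lt_top

theorem zg_mono (h : ZGData K) (x : ℂ) : Monotone (zl K x) := by
  intro s t hst
  exact ENNReal.toReal_mono (zg_lt_top h x t).ne (measure_mono (inter_subset_inter_right _
    (ball_subset_ball hst)))

theorem zg_nonneg (x : ℂ) (r : ℝ) : 0 ≤ zl K x r := ENNReal.toReal_nonneg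

theorem zg_up (h : ZGData K) : ∃ C : ℝ, 0 < C ∧ ∀ x r, 0 < r → zl K x r ≤ C * r := by
  obtain ⟨C, hC⟩ := h.up
  refine ⟨max C 1, by positivity, fun x r hr => ?_⟩
  refine ENNReal.toReal_le_of_le_ofReal (by positivity) ((hC x r hr).trans ?_)
  apply ENNReal.ofReal_le_ofReal
  gcongr
  exact le_max_left _ _

theorem zg_low (h : ZGData K) {x : ℂ} (hx : x ∈ K) {r : ℝ} (hr : 0 < r) : 2 * r ≤ zl K x r := by
  have h1 := h.low x hx r hr
  have h2 := ENNReal.toReal_mono (zg_lt_top h x r).ne h1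
  rwa [ENNReal.toReal_ofReal (by positivity)] at h2

/-- Almost every circle meets `K` in a finite set, whose cardinality is at most the derivative of the
length. -/
theorem zg_good (h : ZGData K) (x : ℂ) (R : ℝ) : ∀ᵐ s ∂(volume.restrict (Ioo 0 R)),
    (K ∩ sphere x s).Finite ∧ ((K ∩ sphere x s).ncard : ℝ) ≤ deriv (zl K x) s := by
  have h1 := count_deriv (S := K) (a := x) (R := R) (fun s _ => zg_lt_top h x s)
  filter_upwards [h1] with s hs
  have hf : (K ∩ sphere x s).Finite := by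
    by_contra hinf
    have htop : (K ∩ sphere x s).encard = ⊤ := Set.Infinite.encard_eq hinf
    obtain ⟨n, hn⟩ := exists_nat_gt (deriv (fun t => ((μH[1] : Measure ℂ) (K ∩ ball x t)).toReal) s)
    have := hs n (by rw [htop]; exact le_top)
    linarith
  refine ⟨hf, hs _ ?_⟩
  rw [hf.cast_ncard_eq]

/-- `L(r) <= N(r) r` on good circles. -/
theorem zg_le_N (h : ZGData K) {x : ℂ} (hx : x ∈ K) {r : ℝ} (hr : 0 < r)
    (hf : (K ∩ sphere x r).Finite) : zl K x r ≤ ((K ∩ sphere x r).ncard : ℝ) * r := by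
  have h2 := h.two x hx r hr hf
  rcases (by omega : (K ∩ sphere x r).ncard = 2 ∨ (K ∩ sphere x r).ncard = 3 ∨
      4 ≤ (K ∩ sphere x r).ncard) with hN | hN | hN
  · obtain ⟨p, q, hpq, he⟩ := Set.ncard_eq_two.1 hN
    rw [hN]
    refine ENNReal.toReal_le_of_le_ofReal (by positivity) ((h.net2 x hx r hr p q hpq he).trans ?_)
    apply ENNReal.ofReal_le_ofReal
    have hp : p ∈ K ∩ sphere x r := by rw [he]; simp
    have hq : q ∈ K ∩ sphere x r := by rw [he]; simp
    have := dist_triangle_right p q x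
    have h1 := mem_sphere.1 hp.2
    have h2 := mem_sphere.1 hq.2
    push_cast
    linarith
  · obtain ⟨p, q, s, hpq, hps, hqs, he⟩ := Set.ncard_eq_three.1 hN
    rw [hN]
    refine ENNReal.toReal_le_of_le_ofReal (by positivity)
      ((h.net3 x hx r hr p q s hpq hqs hps he x (mem_ball_self hr)).trans ?_)
    apply ENNReal.ofReal_le_ofReal
    have hp : p ∈ K ∩ sphere x r := by rw [he]; simp
    have hq : q ∈ K ∩ sphere x r := by rw [he]; simp
    have hs : s ∈ K ∩ sphere x r := by rw [he]; simp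
    have h1 := mem_sphere'.1 hp.2
    have h2 := mem_sphere'.1 hq.2
    have h3 := mem_sphere'.1 hs.2
    push_cast
    linarith
  · refine ENNReal.toReal_le_of_le_ofReal (by positivity) ((h.net4 x hx r hr hf hN).trans ?_)
    apply ENNReal.ofReal_le_ofReal
    gcongr
    linarith

theorem zg_le_N4 (h : ZGData K) {x : ℂ} (hx : x ∈ K) {r : ℝ} (hr : 0 < r)
    (hf : (K ∩ sphere x r).Finite) (hN : 4 ≤ (K ∩ sphere x r).ncard) :
    zl K x r ≤ (((K ∩ sphere x r).ncard : ℝ) - 1 / 20) * r := by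
  have h4 : (4 : ℝ) ≤ ((K ∩ sphere x r).ncard : ℝ) := by exact_mod_cast hN
  refine ENNReal.toReal_le_of_le_ofReal ?_ (h.net4 x hx r hr hf hN)
  have : 0 ≤ (((K ∩ sphere x r).ncard : ℝ) - 1 / 20) := by linarith
  positivity

/-- `L(r)/r` is nondecreasing. -/
theorem zg_ratio (h : ZGData K) {x : ℂ} (hx : x ∈ K) {a b : ℝ} (ha : 0 < a) (hab : a ≤ b) :
    zl K x a * (b / a) ≤ zl K x b := by
  have h1 := ode_power (F := zl K x) (m := 1) ha hab zero_le_one
    ((zg_mono h x).monotoneOn _) (zg_nonneg x a) ?_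
  · rwa [Real.rpow_one] at h1
  · have h2 := zg_good h x (b + 1)
    have h3 : ∀ᵐ s ∂(volume.restrict (Icc a b)),
        (K ∩ sphere x s).Finite ∧ ((K ∩ sphere x s).ncard : ℝ) ≤ deriv (zl K x) s :=
      ae_restrict_of_ae_restrict_of_subset (s := Icc a b) (t := Ioo 0 (b + 1))
        (fun s hs => ⟨by linarith [hs.1], by linarith [hs.2]⟩) h2
    filter_upwards [h3, ae_restrict_mem measurableSet_Icc] with s hs hsm
    have hs0 : 0 < s := ha.trans_le hsm.1
    refine le_trans ?_ hs.2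
    rw [one_mul, div_le_iff₀ hs0]
    exact zg_le_N h hx hs0 hs.1

/-- `L(r) <= 3 r`. -/
theorem zg_le3 (h : ZGData K) {x : ℂ} (hx : x ∈ K) {r : ℝ} (hr : 0 < r) : zl K x r ≤ 3 * r := by
  by_contra hcon
  push Not at hcon
  obtain ⟨C, hC0, hC⟩ := zg_up h
  set m : ℝ := 1 + 1 / (20 * C) with hm
  have hm1 : 0 < m - 1 := by rw [hm]; simp; positivity
  have key : ∀ b, r ≤ b → zl K x r * (b / r) ^ m ≤ zl K x b := by
    intro b hrb
    refine ode_power hr hrb (by linarith) ((zg_mono h x).monotoneOn _) (zg_nonneg x r) ?_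
    have h2 := zg_good h x (b + 1)
    have h3 : ∀ᵐ s ∂(volume.restrict (Icc r b)),
        (K ∩ sphere x s).Finite ∧ ((K ∩ sphere x s).ncard : ℝ) ≤ deriv (zl K x) s :=
      ae_restrict_of_ae_restrict_of_subset (s := Icc r b) (t := Ioo 0 (b + 1))
        (fun s hs => ⟨by linarith [hs.1], by linarith [hs.2]⟩) h2
    filter_upwards [h3, ae_restrict_mem measurableSet_Icc] with s hs hsm
    have hs0 : 0 < s := hr.trans_le hsm.1
    refine le_trans ?_ hs.2
    have h4 := zg_ratio h hx hr hsm.1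
    have h5 : 3 * s < zl K x s := by
      refine lt_of_lt_of_le ?_ h4
      have : 3 * s = 3 * r * (s / r) := by field_simp
      rw [this]
      have : 0 < s / r := by positivity
      gcongr
    have h6 := zg_le_N h hx hs0 hs.1
    have h7 : (3 : ℝ) < ((K ∩ sphere x s).ncard : ℝ) := by
      by_contra hcon2
      push Not at hcon2
      have : ((K ∩ sphere x s).ncard : ℝ) * s ≤ 3 * s := by gcongr
      linarith
    have h8 : 4 ≤ (K ∩ sphere x s).ncard := by
      have : 3 < (K ∩ sphere x s).ncard := by exact_mod_cast h7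
      omega
    have h9 := zg_le_N4 h hx hs0 hs.1 h8
    have h10 := hC x s hs0
    rw [div_le_iff₀ hs0]
    have h11 : m * zl K x s = zl K x s + zl K x s / (20 * C) := by rw [hm]; ring
    have h12 : zl K x s / (20 * C) ≤ s / 20 := by
      rw [div_le_div_iff₀ (by positivity) (by norm_num)]
      nlinarith
    rw [h11]
    nlinarith
  have h0 : 0 < zl K x r := by linarith [mul_pos (by norm_num : (0:ℝ) < 3) hr]
  -- contradiction for large b
  have ht : Tendsto (fun b : ℝ => (b / r) ^ (m - 1)) atTop atTop :=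
    (tendsto_rpow_atTop hm1).comp (tendsto_id.atTop_div_const hr)
  obtain ⟨b, hb1, hb2⟩ := ((ht.eventually_gt_atTop (C * r / zl K x r)).and
    (eventually_ge_atTop r)).exists
  have h1 := key b hb2
  have hb0 : 0 < b := hr.trans_le hb2
  have h2 := hC x b hb0
  have h3 : (b / r) ^ m = (b / r) ^ (m - 1) * (b / r) := by
    rw [← Real.rpow_add_one (by positivity)]
    ring_nf
  rw [h3] at h1
  rw [div_lt_iff₀ h0] at hb1
  have h4 : C * r * (b / r) < (b / r) ^ (m - 1) * zl K x r * (b / r) := by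
    have : 0 < b / r := by positivity
    gcongr
  have h5 : C * r * (b / r) = C * b := by field_simp
  rw [h5] at h4
  nlinarith

/-- A monotone function whose derivative is at least `c` almost everywhere. -/
theorem zg_deriv_le {F : ℝ → ℝ} (hF : Monotone F) {a b c : ℝ} (hab : a ≤ b)
    (hd : ∀ᵐ s ∂(volume.restrict (Icc a b)), c ≤ deriv F s) : c * (b - a) ≤ F b - F a := by
  have hmono : MonotoneOn F (uIcc a b) := hF.monotoneOn _
  have h1 := hmono.intervalIntegral_deriv_mem_uIcc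
  have h2 : ∫ x in a..b, deriv F x ≤ F b - F a := by
    rw [uIcc_of_le (by linarith [hF hab])] at h1
    exact h1.2
  have h4 : ∫ x in a..b, c ≤ ∫ x in a..b, deriv F x :=
    intervalIntegral.integral_mono_ae_restrict hab intervalIntegrable_const
      hmono.intervalIntegrable_deriv hd
  rw [intervalIntegral.integral_const, smul_eq_mul] at h4
  linarith

/-- The dichotomy at a centre. -/
theorem zg_dichotomy (h : ZGData K) {x : ℂ} (hx : x ∈ K) :
    (∃ r : ℝ, 0 < r ∧ ∃ p q : ℂ, p ≠ q ∧ K ∩ sphere x r = {p, q}) ∨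
    ((∀ r : ℝ, 0 < r → zl K x r = 3 * r) ∧ ∀ R : ℝ, ∀ᵐ s ∂(volume.restrict (Ioo 0 R)),
      ∃ p q t : ℂ, p ≠ q ∧ q ≠ t ∧ p ≠ t ∧ K ∩ sphere x s = {p, q, t}) := by
  by_cases hc : ∃ r : ℝ, 0 < r ∧ ∃ p q : ℂ, p ≠ q ∧ K ∩ sphere x r = {p, q}
  · exact Or.inl hc
  right
  have h3 : ∀ s : ℝ, 0 < s → (K ∩ sphere x s).Finite → 3 ≤ (K ∩ sphere x s).ncard := by
    intro s hs hf
    have h2 := h.two x hx s hs hf
    have hne : (K ∩ sphere x s).ncard ≠ 2 := by
      intro h2'
      obtain ⟨p, q, hpq, he⟩ := Set.ncard_eq_two.1 h2'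
      exact hc ⟨s, hs, p, q, hpq, he⟩
    omega
  have hd : ∀ R : ℝ, ∀ᵐ s ∂(volume.restrict (Ioo 0 R)), (3 : ℝ) ≤ deriv (zl K x) s := by
    intro R
    filter_upwards [zg_good h x R, ae_restrict_mem measurableSet_Ioo] with s hs hsm
    have := h3 s hsm.1 hs.1
    have h4 : (3 : ℝ) ≤ ((K ∩ sphere x s).ncard : ℝ) := by exact_mod_cast this
    linarith [hs.2]
  have hL : ∀ r : ℝ, 0 < r → zl K x r = 3 * r := by
    intro r hr
    refine le_antisymm (zg_le3 h hx hr) ?_
    have key : ∀ ε : ℝ, 0 < ε → ε < r → 3 * (r - ε) ≤ zl K x r := by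
      intro ε hε hεr
      have h4 := zg_deriv_le (zg_mono h x) hεr.le (c := 3)
        (ae_restrict_of_ae_restrict_of_subset (s := Icc ε r) (t := Ioo 0 (r + 1))
          (fun s hs => ⟨by linarith [hs.1], by linarith [hs.2]⟩) (hd (r + 1)))
      linarith [zg_nonneg (K := K) x ε]
    by_contra hcon
    push Not at hcon
    have h5 := key (min (r / 2) ((3 * r - zl K x r) / 6)) (by
      apply lt_min <;> linarith) (lt_of_le_of_lt (min_le_left _ _) (by linarith))
    have h6 := min_le_right (r / 2) ((3 * r - zl K x r) / 6)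
    linarith
  refine ⟨hL, fun R => ?_⟩
  have hder : ∀ s : ℝ, 0 < s → deriv (zl K x) s = 3 := by
    intro s hs
    have : zl K x =ᶠ[𝓝 s] fun t => 3 * t := by
      filter_upwards [lt_mem_nhds hs] with t ht using hL t ht
    rw [this.deriv_eq]
    simp
  filter_upwards [zg_good h x R, ae_restrict_mem measurableSet_Ioo] with s hs hsm
  have h5 := h3 s hsm.1 hs.1
  have h6 := hs.2
  rw [hder s hsm.1] at h6
  have h7 : (K ∩ sphere x s).ncard ≤ 3 := by exact_mod_cast h6
  obtain ⟨p, q, t, hpq, hpt, hqt, he⟩ := Set.ncard_eq_three.1 (le_antisymm h7 h5)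
  exact ⟨p, q, t, hpq, hqt, hpt, he⟩

end Pool.Agent.MP099f24
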