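import Mathlib

/-!
# Zero gradient elements, part 3: identification of the set in a ball
-/

namespace Pool.Agent.MP099f24

open MeasureTheory Filter Topology Set Metric
open scoped ENNReal

theorem zg_ray_isometry (x : ℂ) {e : ℂ} (he : ‖e‖ = 1) :
    Isometry (fun s : ℝ => x + (s : ℂ) * e) := by
  refine Isometry.of_dist_eq fun s t => ?_
  rw [dist_eq_norm, dist_eq_norm]
  have : x + (s : ℂ) * e - (x + (t : ℂ) * e) = ((s - t : ℝ) : ℂ) * e := by push_cast; ring
  rw [this, norm_mul, he, mul_one, Complex.norm_real]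

theorem zg_ray_measure (x : ℂ) {e : ℂ} (he : ‖e‖ = 1) (a b : ℝ) :
    (μH[1] : Measure ℂ) ((fun s : ℝ => x + (s : ℂ) * e) '' Ioo a b) = ENNReal.ofReal (b - a) := by
  rw [(zg_ray_isometry x he).hausdorffMeasure_image (Or.inl zero_le_one), hausdorffMeasure_real,
    Real.volume_Ioo]

theorem zg_ray_meas (x : ℂ) {e : ℂ} (he : ‖e‖ = 1) (a b : ℝ) :
    MeasurableSet ((fun s : ℝ => x + (s : ℂ) * e) '' Ioo a b) :=
  (zg_ray_isometry x he).isClosedEmbedding.measurableEmbedding.measurableSet_image.2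
    measurableSet_Ioo

theorem zg_ray_dist (x : ℂ) {e : ℂ} (he : ‖e‖ = 1) {s : ℝ} (hs : 0 ≤ s) :
    dist (x + (s : ℂ) * e) x = s := by
  rw [dist_eq_norm]
  have : x + (s : ℂ) * e - x = (s : ℂ) * e := by ring
  rw [this, norm_mul, he, mul_one, Complex.norm_real, Real.norm_of_nonneg hs]

/-- Directions are determined by points. -/
theorem zg_ray_inj (x : ℂ) {e f : ℂ} (he : ‖e‖ = 1) (hf : ‖f‖ = 1) {s t : ℝ} (hs : 0 < s)
    (ht : 0 < t) (h : x + (s : ℂ) * e = x + (t : ℂ) * f) : s = t ∧ e = f := by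
  have h1 := zg_ray_dist x he hs.le
  have h2 := zg_ray_dist x hf ht.le
  rw [h, h2] at h1
  subst h1
  refine ⟨rfl, ?_⟩
  have h3 : (t : ℂ) * e = t * f := add_left_cancel h
  exact mul_left_cancel₀ (by exact_mod_cast ht.ne') h3

/-- If `K` contains the radii `x + s e`, `e in E`, `s < ρ` and has length at most `card E * ρ` in
the ball, then it is the union of these radii in the ball. -/
theorem zg_fill {K : Set ℂ} {x : ℂ} {ρ : ℝ} {E : Finset ℂ} (hK : IsClosed K)
    (hlow : ∀ y ∈ K, ∀ r : ℝ, 0 < r → ENNReal.ofReal (2 * r) ≤ (μH[1] : Measure ℂ) (K ∩ ball y r))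
    (hE : ∀ e ∈ E, ‖e‖ = 1) (hEne : E.Nonempty) (hρ : 0 < ρ)
    (hae : ∀ᵐ (s : ℝ) ∂(volume.restrict (Ioo 0 ρ)), ∀ e ∈ E, x + (s : ℂ) * e ∈ K)
    (hL : (μH[1] : Measure ℂ) (K ∩ ball x ρ) ≤ ENNReal.ofReal (E.card * ρ)) :
    K ∩ ball x ρ = {z | ∃ e ∈ E, ∃ s : ℝ, 0 ≤ s ∧ s < ρ ∧ z = x + (s : ℂ) * e} := by
  -- the radii are in K
  have h1 : ∀ e ∈ E, ∀ s : ℝ, 0 ≤ s → s < ρ → x + (s : ℂ) * e ∈ K := by
    intro e he s hs0 hsρ
    have hcont : Continuous (fun s : ℝ => x + (s : ℂ) * e) := by fun_prop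
    have hcl : IsClosed ((fun s : ℝ => x + (s : ℂ) * e) ⁻¹' K) := hK.preimage hcont
    have hd : s ∈ closure ((fun s : ℝ => x + (s : ℂ) * e) ⁻¹' K) := by
      rw [Metric.mem_closure_iff]
      intro ε hε
      -- the interval (s, min (s+ε) ρ) has positive measure
      have hpos : (volume.restrict (Ioo 0 ρ)) (Ioo s (min (s + ε) ρ)) ≠ 0 := by
        rw [Measure.restrict_apply measurableSet_Ioo]
        have : Ioo s (min (s + ε) ρ) ∩ Ioo 0 ρ = Ioo s (min (s + ε) ρ) := by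
          refine inter_eq_left.2 fun t ht => ⟨by linarith [ht.1], ?_⟩
          exact ht.2.trans_le (min_le_right _ _)
        rw [this, Real.volume_Ioo]
        have : s < min (s + ε) ρ := lt_min (by linarith) hsρ
        simpa using this
      obtain ⟨t, ht1, ht2⟩ : ∃ t, t ∈ Ioo s (min (s + ε) ρ) ∧ ∀ e ∈ E, x + (t : ℂ) * e ∈ K := by
        by_contra hcon
        push Not at hcon
        apply hpos
        refine measure_mono_null (fun t ht => ?_) (ae_iff.1 hae)
        simp only [mem_setOf_eq, not_forall]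
        obtain ⟨e', he', hn⟩ := hcon t ht
        exact ⟨e', he', hn⟩
      refine ⟨t, ht2 e he, ?_⟩
      rw [Real.dist_eq, abs_sub_comm, abs_of_pos (by linarith [ht1.1])]
      linarith [ht1.2, min_le_left (s + ε) ρ]
    rwa [hcl.closure_eq] at hd
  set S : Set ℂ := {z | ∃ e ∈ E, ∃ s : ℝ, 0 ≤ s ∧ s < ρ ∧ z = x + (s : ℂ) * e} with hS
  -- measure of the open radii
  set T : Set ℂ := ⋃ e ∈ E, (fun s : ℝ => x + (s : ℂ) * e) '' Ioo 0 ρ with hT
  have hTm : MeasurableSet T := Finset.measurableSet_biUnion E fun e he => zg_ray_meas x (hE e he) _ _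
  have hTμ : (μH[1] : Measure ℂ) T = ENNReal.ofReal (E.card * ρ) := by
    rw [hT, measure_biUnion_finset]
    · rw [Finset.sum_congr rfl fun e he => zg_ray_measure x (hE e he) 0 ρ]
      rw [Finset.sum_const, nsmul_eq_mul, ← ENNReal.ofReal_natCast,
        ← ENNReal.ofReal_mul (by positivity), sub_zero]
    · intro e he f hf hef
      refine Set.disjoint_left.2 ?_
      rintro _ ⟨s, hs, rfl⟩ ⟨t, ht, htx⟩
      exact hef (zg_ray_inj x (hE e he) (hE f hf) hs.1 ht.1 htx.symm).2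
    · exact fun e he => zg_ray_meas x (hE e he) _ _
  have hTS : T ⊆ S := by
    intro z hz
    simp only [hT, mem_iUnion, exists_prop] at hz
    obtain ⟨e, he, s, hs, rfl⟩ := hz
    exact ⟨e, he, s, hs.1.le, hs.2, rfl⟩
  refine Subset.antisymm ?_ ?_
  · intro z hz
    by_contra hzS
    -- closed star
    set S' : Set ℂ := ⋃ e ∈ E, (fun s : ℝ => x + (s : ℂ) * e) '' Icc 0 ρ with hS'
    have hS'c : IsClosed S' := by
      refine Set.Finite.isClosed_biUnion E.finite_toSet fun e _ => ?_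
      refine (isCompact_Icc.image ?_).isClosed
      fun_prop
    have hzS' : z ∉ S' := by
      intro h
      simp only [hS', mem_iUnion, exists_prop] at h
      obtain ⟨e, he, s, hs, rfl⟩ := h
      apply hzS
      refine ⟨e, he, s, hs.1, ?_, rfl⟩
      have := hz.2
      rwa [mem_ball, zg_ray_dist x (hE e he) hs.1] at this
    have hopen : IsOpen (S'ᶜ ∩ ball x ρ) := hS'c.isOpen_compl.inter isOpen_ball
    obtain ⟨ε, hε, hb⟩ := Metric.isOpen_iff.1 hopen z ⟨hzS', hz.2⟩
    have h2 := hlow z hz.1 ε hε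
    have h3 : (μH[1] : Measure ℂ) (K ∩ ball z ε) + (μH[1] : Measure ℂ) T ≤
        (μH[1] : Measure ℂ) (K ∩ ball x ρ) := by
      rw [← measure_union _ hTm]
      · refine measure_mono ?_
        rintro w (⟨hw1, hw2⟩ | hw)
        · exact ⟨hw1, (hb hw2).2⟩
        · obtain ⟨e, he, s, hs0, hsρ, rfl⟩ := hTS hw
          refine ⟨h1 e he s hs0 hsρ, ?_⟩
          rw [mem_ball, zg_ray_dist x (hE e he) hs0]
          exact hsρ
      · refine Set.disjoint_left.2 ?_
        rintro w ⟨_, hw1⟩ hw2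
        have h4 := (hb hw1).1
        apply h4
        simp only [hT, hS', mem_iUnion, exists_prop] at hw2 ⊢
        obtain ⟨e, he, s, hs, rfl⟩ := hw2
        exact ⟨e, he, s, Ioo_subset_Icc_self hs, rfl⟩
    rw [hTμ] at h3
    have h4 : ENNReal.ofReal (2 * ε) + ENNReal.ofReal (E.card * ρ) ≤
        0 + ENNReal.ofReal (E.card * ρ) := by
      rw [zero_add]
      exact (add_le_add_left h2 _).trans (h3.trans hL)
    have h5 := (ENNReal.add_le_add_iff_right ENNReal.ofReal_ne_top).1 h4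
    have h6 : 0 < ENNReal.ofReal (2 * ε) := ENNReal.ofReal_pos.2 (by positivity)
    exact absurd h5 (not_le.2 h6)
  · rintro z ⟨e, he, s, hs0, hsρ, rfl⟩
    refine ⟨h1 e he s hs0 hsρ, ?_⟩
    rw [mem_ball, zg_ray_dist x (hE e he) hs0]
    exact hsρ

end Pool.Agent.MP099f24
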