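import Mathlib

/-!
# Zero gradient elements, part 2: radial rigidity by ball packing
-/

namespace Pool.Agent.MP099f24

open MeasureTheory Filter Topology Set Metric
open scoped ENNReal

/-- The radii of an `H^1`-null set are null. -/
theorem zg_image_null {E : Set ℂ} (hE : (μH[1] : Measure ℂ) E = 0) (x : ℂ) :
    volume ((fun z => dist z x) '' E) = 0 := by
  have h1 : LipschitzWith 1 (fun z : ℂ => dist z x) := LipschitzWith.dist_left x
  have h2 := h1.hausdorffMeasure_image_le (d := 1) zero_le_one E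
  rw [hausdorffMeasure_real, hE] at h2
  simpa using h2

/-- Equality case of the triangle inequality. -/
theorem zg_collinear {x y z : ℂ} {s t : ℝ} (ht : 0 < t) (hy : dist y x = t) (hz : dist z x = s)
    (hzy : dist z y ≤ |s - t|) : z - x = ((s / t : ℝ) : ℂ) * (y - x) := by
  have h1 : ‖z - x‖ = s := by rwa [dist_eq_norm] at hz
  have h2 : ‖y - x‖ = t := by rwa [dist_eq_norm] at hy
  have h3 : ‖(z - x) - (y - x)‖ ≤ |s - t| := by
    rw [dist_eq_norm] at hzy
    have : z - x - (y - x) = z - y := by ring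
    rwa [this]
  have hs : 0 ≤ s := by rw [← h1]; exact norm_nonneg _
  have h4 : ‖(z - x) - (y - x)‖ ^ 2 ≤ (s - t) ^ 2 := by
    rw [← sq_abs (s - t)]
    gcongr
  have h5 := norm_sub_sq_real (z - x) (y - x)
  rw [h1, h2] at h5
  have h6 : s * t ≤ inner ℝ (z - x) (y - x) := by nlinarith
  have h7 : inner ℝ (z - x) (y - x) = ‖z - x‖ * ‖y - x‖ := by
    refine le_antisymm (real_inner_le_norm _ _) ?_
    rw [h1, h2]
    exact h6
  have h8 := inner_eq_norm_mul_iff_real.1 h7
  rw [h1, h2] at h8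
  have h9 : (t : ℂ) * (z - x) = (s : ℂ) * (y - x) := by
    simpa [Complex.real_smul] using h8
  have ht' : (t : ℂ) ≠ 0 := by exact_mod_cast ht.ne'
  push_cast
  field_simp
  linear_combination h9

/-- If `H^1(K cap B_s(x)) = c s` for `s < R`, each of the `c` points of the finite set `F` on the circle
of radius `t` carries density two, then near this circle `K` is contained in the rays through `F`. -/
theorem zg_radial {K : Set ℂ} {x : ℂ} {R t ρ₀ : ℝ} {c : ℕ} {F : Finset ℂ} (hKm : MeasurableSet K)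
    (hL : ∀ s : ℝ, 0 ≤ s → s ≤ R → (μH[1] : Measure ℂ) (K ∩ ball x s) = ENNReal.ofReal (c * s))
    (hlow : ∀ y ∈ F, ∀ r : ℝ, 0 < r → ENNReal.ofReal (2 * r) ≤ (μH[1] : Measure ℂ) (K ∩ ball y r))
    (hF : ∀ y ∈ F, dist y x = t) (hc : F.card = c) (ht : 0 < t) (hρt : ρ₀ ≤ t) (hρR : t + ρ₀ ≤ R)
    (hsep : ∀ y ∈ F, ∀ z ∈ F, y ≠ z → 2 * ρ₀ ≤ dist y z) :
    ∀ᵐ s : ℝ, |s - t| < ρ₀ → ∀ z ∈ K ∩ sphere x s, ∃ y ∈ F,
      z - x = ((s / t : ℝ) : ℂ) * (y - x) := by
  -- the packing step for a fixed radius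
  have key : ∀ ρ : ℝ, 0 < ρ → ρ ≤ ρ₀ → ∀ᵐ s : ℝ, |s - t| < ρ →
      K ∩ sphere x s ⊆ ⋃ y ∈ F, ball y ρ := by
    intro ρ hρ hρρ
    set A : Set ℂ := ball x (t + ρ) \ ball x (t - ρ) with hA
    have hAm : MeasurableSet A := measurableSet_ball.diff measurableSet_ball
    set U : Set ℂ := ⋃ y ∈ F, ball y ρ with hU
    have hUm : MeasurableSet U := Finset.measurableSet_biUnion F fun y _ => measurableSet_ball
    -- the measure of K ∩ A
    have h1 : (μH[1] : Measure ℂ) (K ∩ ball x (t + ρ)) = ENNReal.ofReal (c * (t + ρ)) :=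
      hL _ (by linarith) (by linarith)
    have h2 : (μH[1] : Measure ℂ) (K ∩ ball x (t - ρ)) = ENNReal.ofReal (c * (t - ρ)) :=
      hL _ (by linarith) (by linarith)
    have h3 : (μH[1] : Measure ℂ) (K ∩ ball x (t - ρ)) + (μH[1] : Measure ℂ) (K ∩ A) ≤
        (μH[1] : Measure ℂ) (K ∩ ball x (t + ρ)) := by
      rw [← measure_union]
      · refine measure_mono ?_
        rintro z (⟨hz1, hz2⟩ | ⟨hz1, hz2⟩)
        · exact ⟨hz1, ball_subset_ball (by linarith) hz2⟩
        · exact ⟨hz1, hz2.1⟩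
      · rw [Set.disjoint_left]
        rintro z ⟨_, hz1⟩ ⟨_, hz2⟩
        exact hz2.2 hz1
      · exact hKm.inter hAm
    have h4 : (μH[1] : Measure ℂ) (K ∩ A) ≤ ENNReal.ofReal (2 * c * ρ) := by
      rw [h1, h2] at h3
      have h5 : ENNReal.ofReal (c * (t + ρ)) =
          ENNReal.ofReal (c * (t - ρ)) + ENNReal.ofReal (2 * c * ρ) := by
        rw [← ENNReal.ofReal_add (by have : 0 ≤ t - ρ := by linarith
                                     positivity) (by positivity)]
        congr 1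
        ring
      rw [h5] at h3
      exact (ENNReal.add_le_add_iff_left ENNReal.ofReal_ne_top).1 h3
    -- the balls
    have h5 : ENNReal.ofReal (2 * c * ρ) ≤ (μH[1] : Measure ℂ) (K ∩ A ∩ U) := by
      have h6 : (μH[1] : Measure ℂ) (⋃ y ∈ F, K ∩ ball y ρ) =
          ∑ y ∈ F, (μH[1] : Measure ℂ) (K ∩ ball y ρ) := by
        refine measure_biUnion_finset ?_ fun y _ => hKm.inter measurableSet_ball
        intro y hy z hz hyz
        refine Set.disjoint_left.2 ?_
        rintro w ⟨_, hw1⟩ ⟨_, hw2⟩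
        have := hsep y hy z hz hyz
        have h7 := dist_triangle_left y z w
        rw [mem_ball] at hw1 hw2
        linarith
      have h7 : ENNReal.ofReal (2 * c * ρ) ≤ ∑ y ∈ F, (μH[1] : Measure ℂ) (K ∩ ball y ρ) := by
        have h8 : ∑ y ∈ F, ENNReal.ofReal (2 * ρ) ≤ ∑ y ∈ F, (μH[1] : Measure ℂ) (K ∩ ball y ρ) :=
          Finset.sum_le_sum fun y hy => hlow y hy ρ hρ
        refine le_trans (le_of_eq ?_) h8
        rw [Finset.sum_const, hc, nsmul_eq_mul, ← ENNReal.ofReal_natCast,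
          ← ENNReal.ofReal_mul (by positivity)]
        congr 1
        ring
      refine h7.trans (h6.symm.le.trans (measure_mono ?_))
      intro w hw
      simp only [mem_iUnion, exists_prop] at hw
      obtain ⟨y, hy, hwK, hwb⟩ := hw
      refine ⟨⟨hwK, ?_, ?_⟩, ?_⟩
      · rw [mem_ball] at hwb ⊢
        have := dist_triangle w y x
        rw [hF y hy] at this
        linarith
      · rw [mem_ball] at hwb ⊢
        have := dist_triangle_left y x w
        rw [hF y hy] at this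
        rw [dist_comm] at hwb
        have h9 : dist w y = dist y w := dist_comm _ _
        linarith
      · simp only [hU, mem_iUnion, exists_prop]
        exact ⟨y, hy, hwb⟩
    have h6 : (μH[1] : Measure ℂ) ((K ∩ A) \ U) = 0 := by
      have h7 := measure_inter_add_sdiff (μ := (μH[1] : Measure ℂ)) (K ∩ A) hUm
      have h8 : (μH[1] : Measure ℂ) (K ∩ A ∩ U) + (μH[1] : Measure ℂ) ((K ∩ A) \ U) ≤
          (μH[1] : Measure ℂ) (K ∩ A ∩ U) + 0 := by
        rw [h7, add_zero]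
        exact h4.trans h5
      have h9 : (μH[1] : Measure ℂ) (K ∩ A ∩ U) ≠ ⊤ :=
        ((measure_mono inter_subset_left).trans_lt (h4.trans_lt ENNReal.ofReal_lt_top)).ne
      exact le_antisymm ((ENNReal.add_le_add_iff_left h9).1 h8) bot_le
    have h7 := zg_image_null h6 x
    have h8 : ∀ᵐ s : ℝ, s ∉ (fun z => dist z x) '' ((K ∩ A) \ U) :=
      measure_eq_zero_iff_ae_notMem.1 h7
    filter_upwards [h8] with s hs hst z hz
    by_contra hzU
    apply hs
    refine ⟨z, ⟨⟨hz.1, ?_, ?_⟩, hzU⟩, hz.2⟩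
    · rw [mem_ball, mem_sphere.1 hz.2]
      linarith [(abs_lt.1 hst).2]
    · rw [mem_ball, mem_sphere.1 hz.2, not_lt]
      linarith [(abs_lt.1 hst).1]
  have key2 : ∀ᵐ s : ℝ, ∀ ρ : ℚ, 0 < (ρ : ℝ) → (ρ : ℝ) ≤ ρ₀ → |s - t| < ρ →
      K ∩ sphere x s ⊆ ⋃ y ∈ F, ball y (ρ : ℝ) := by
    rw [ae_all_iff]
    intro ρ
    by_cases h : 0 < (ρ : ℝ) ∧ (ρ : ℝ) ≤ ρ₀
    · filter_upwards [key ρ h.1 h.2] with s hs _ _ hst using hs hst
    · filter_upwards with s h1 h2
      exact absurd ⟨h1, h2⟩ h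
  filter_upwards [key2] with s hs hst z hz
  by_contra hcon
  push Not at hcon
  have h1 : ∀ y ∈ F, |s - t| < dist z y := by
    intro y hy
    by_contra h2
    push Not at h2
    exact hcon y hy (zg_collinear ht (hF y hy) (mem_sphere.1 hz.2) h2)
  -- a rational radius
  obtain ⟨m, hm1, hm2, hm3⟩ : ∃ m : ℝ, |s - t| < m ∧ m ≤ ρ₀ ∧ ∀ y ∈ F, m ≤ dist z y := by
    rcases F.eq_empty_or_nonempty with rfl | hne
    · exact ⟨ρ₀, hst, le_rfl, by simp⟩
    · obtain ⟨y₀, hy₀, hmin⟩ := F.exists_min_image (fun y => dist z y) hne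
      exact ⟨min ρ₀ (dist z y₀), lt_min hst (h1 y₀ hy₀), min_le_left _ _, fun y hy =>
        (min_le_right _ _).trans (hmin y hy)⟩
  obtain ⟨q, hq1, hq2⟩ := exists_rat_btwn hm1
  have h2 := hs q ((abs_nonneg _).trans_lt hq1) (hq2.le.trans hm2) hq1 hz
  simp only [mem_iUnion, exists_prop, mem_ball] at h2
  obtain ⟨y, hy, hyz⟩ := h2
  linarith [hm3 y hy]

end Pool.Agent.MP099f24
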