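import Mathlib
import Pool.Agent.Lib.MP_099f24_an.ZG.Basic
import Pool.Agent.Lib.MP_099f24_an.ZG.Radial
import Pool.Agent.Lib.MP_099f24_an.ZG.Fill

/-!
# Zero gradient elements, part 4: a circle with two points
-/

namespace Pool.Agent.MP099f24

open MeasureTheory Filter Topology Set Metric
open scoped ENNReal

variable {K : Set ℂ}

theorem zg_ofReal (h : ZGData K) (x : ℂ) (r : ℝ) :
    (μH[1] : Measure ℂ) (K ∩ ball x r) = ENNReal.ofReal (zl K x r) :=
  (ENNReal.ofReal_toReal (zg_lt_top h x r).ne).symm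

theorem zg_antipodal {x p q : ℂ} {s : ℝ} (hp : dist p x = s) (hq : dist q x = s)
    (hpq : 2 * s ≤ dist p q) : q - x = -(p - x) := by
  have h1 : ‖p - x‖ = s := by rwa [dist_eq_norm] at hp
  have h2 : ‖q - x‖ = s := by rwa [dist_eq_norm] at hq
  have h3 : 2 * s ≤ ‖(p - x) - (q - x)‖ := by
    rw [dist_eq_norm] at hpq
    have : p - x - (q - x) = p - q := by ring
    rwa [this]
  have hs : 0 ≤ s := by rw [← h1]; exact norm_nonneg _
  have h4 := norm_sub_sq_real (p - x) (q - x)
  have h5 := norm_add_sq_real (p - x) (q - x)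
  rw [h1, h2] at h4 h5
  have h6 : (2 * s) ^ 2 ≤ ‖(p - x) - (q - x)‖ ^ 2 := by gcongr
  have h7 : ‖(p - x) + (q - x)‖ ^ 2 ≤ 0 := by nlinarith
  have h8 : (p - x) + (q - x) = 0 := by
    have := sq_nonneg ‖(p - x) + (q - x)‖
    have h9 : ‖(p - x) + (q - x)‖ ^ 2 = 0 := le_antisymm h7 this
    simpa using h9
  linear_combination h8

theorem zg_two_all (h : ZGData K) {x : ℂ} (hx : x ∈ K) {r : ℝ} (hr : 0 < r) {p q : ℂ}
    (hpq : p ≠ q) (he : K ∩ sphere x r = {p, q}) :
    (∀ s : ℝ, 0 < s → s ≤ r → zl K x s = 2 * s) ∧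
    ∀ᵐ (s : ℝ) ∂(volume.restrict (Ioo 0 r)), ∃ e : ℂ, ‖e‖ = 1 ∧
      K ∩ sphere x s = {x + (s : ℂ) * e, x + (s : ℂ) * (-e)} := by
  have hr2 : zl K x r ≤ 2 * r := by
    refine ENNReal.toReal_le_of_le_ofReal (by positivity) ((h.net2 x hx r hr p q hpq he).trans ?_)
    apply ENNReal.ofReal_le_ofReal
    have hp : p ∈ K ∩ sphere x r := by rw [he]; simp
    have hq : q ∈ K ∩ sphere x r := by rw [he]; simp
    have := dist_triangle_right p q x
    have h1 := mem_sphere.1 hp.2
    have h2 := mem_sphere.1 hq.2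
    linarith
  have hL : ∀ s : ℝ, 0 < s → s ≤ r → zl K x s = 2 * s := by
    intro s hs hsr
    refine le_antisymm ?_ (zg_low h hx hs)
    have h1 := zg_ratio h hx hs hsr
    have h2 : zl K x s * (r / s) ≤ 2 * r := h1.trans hr2
    rw [← mul_div_assoc, div_le_iff₀ hs] at h2
    by_contra hcon
    push Not at hcon
    have : 2 * s * r < zl K x s * r := by gcongr
    linarith
  refine ⟨hL, ?_⟩
  have hder : ∀ s : ℝ, 0 < s → s < r → deriv (zl K x) s = 2 := by
    intro s hs hsr
    have : zl K x =ᶠ[𝓝 s] fun t => 2 * t := by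
      filter_upwards [lt_mem_nhds hs, gt_mem_nhds hsr] with t ht ht2 using hL t ht ht2.le
    rw [this.deriv_eq]
    simp
  filter_upwards [zg_good h x r, ae_restrict_mem measurableSet_Ioo] with s hs hsm
  have h5 := h.two x hx s hsm.1 hs.1
  have h6 := hs.2
  rw [hder s hsm.1 hsm.2] at h6
  have h7 : (K ∩ sphere x s).ncard ≤ 2 := by exact_mod_cast h6
  obtain ⟨a, b, hab, hab2⟩ := Set.ncard_eq_two.1 (le_antisymm h7 h5)
  have ha : a ∈ K ∩ sphere x s := by rw [hab2]; simp
  have hb : b ∈ K ∩ sphere x s := by rw [hab2]; simp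
  have hn := h.net2 x hx s hsm.1 a b hab hab2
  have hn2 : 2 * s ≤ dist a b := by
    rw [zg_ofReal h, hL s hsm.1 hsm.2.le] at hn
    exact (ENNReal.ofReal_le_ofReal_iff dist_nonneg).1 hn
  have hanti := zg_antipodal (mem_sphere.1 ha.2) (mem_sphere.1 hb.2) hn2
  have hs0 : (s : ℂ) ≠ 0 := by exact_mod_cast hsm.1.ne'
  refine ⟨(a - x) / s, ?_, ?_⟩
  · have h8 : ‖a - x‖ = s := by
      have := mem_sphere.1 ha.2
      rwa [dist_eq_norm] at this
    rw [norm_div, h8, Complex.norm_real, Real.norm_of_nonneg hsm.1.le, div_self hsm.1.ne']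
  · rw [hab2]
    have h8 : a = x + (s : ℂ) * ((a - x) / s) := by field_simp; ring
    have h9 : b = x + (s : ℂ) * (-((a - x) / s)) := by
      have : b = x + (b - x) := by ring
      rw [this, hanti]
      field_simp
    rw [← h8, ← h9]

theorem zg_line_local (h : ZGData K) {x : ℂ} (hx : x ∈ K) {r : ℝ} (hr : 0 < r) {p q : ℂ}
    (hpq : p ≠ q) (he : K ∩ sphere x r = {p, q}) :
    ∃ ρ : ℝ, 0 < ρ ∧ ∃ e : ℂ, ‖e‖ = 1 ∧
      K ∩ ball x ρ = {z | ∃ s : ℝ, |s| < ρ ∧ z = x + (s : ℂ) * e} := by
  obtain ⟨hL, hae⟩ := zg_two_all h hx hr hpq he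
  -- a good radius in (r/4, r/2)
  obtain ⟨t, ht, e, hen, hte⟩ : ∃ t ∈ Ioo (r / 4) (r / 2), ∃ e : ℂ, ‖e‖ = 1 ∧
      K ∩ sphere x t = {x + (t : ℂ) * e, x + (t : ℂ) * (-e)} := by
    by_contra hcon
    push Not at hcon
    have h1 : (volume.restrict (Ioo 0 r)) (Ioo (r / 4) (r / 2)) = 0 := by
      refine measure_mono_null (fun t ht => ?_) (ae_iff.1 hae)
      simp only [mem_ofPred_eq, not_exists, not_and]
      intro e hen
      exact hcon t ht e hen
    rw [Measure.restrict_apply measurableSet_Ioo] at h1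
    have h2 : Ioo (r / 4) (r / 2) ∩ Ioo 0 r = Ioo (r / 4) (r / 2) := by
      refine inter_eq_left.2 fun t ht => ⟨?_, ?_⟩ <;> linarith [ht.1, ht.2]
    rw [h2, Real.volume_Ioo] at h1
    have : 0 < r / 2 - r / 4 := by linarith
    simp at h1
    linarith
  have ht0 : 0 < t := by linarith [ht.1]
  have htc : (t : ℂ) ≠ 0 := by exact_mod_cast ht0.ne'
  have hne0 : e ≠ 0 := by
    rintro rfl
    simp at hen
  have hne : e ≠ -e := by
    intro h1
    apply hne0
    have : (2 : ℂ) * e = 0 := by linear_combination h1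
    simpa using this
  have hpts : x + (t : ℂ) * e ≠ x + (t : ℂ) * (-e) := by
    intro h1
    exact hne (mul_left_cancel₀ htc (add_left_cancel h1))
  set F : Finset ℂ := {x + (t : ℂ) * e, x + (t : ℂ) * (-e)} with hF
  have hFK : ∀ y ∈ F, y ∈ K ∩ sphere x t := by
    intro y hy
    rw [hte]
    simpa [hF] using hy
  have hcard : F.card = 2 := Finset.card_pair hpts
  have hrad := zg_radial (K := K) (x := x) (R := r) (t := t) (ρ₀ := t) (c := 2) (F := F)
    h.closed.measurableSet (by
      intro s hs0 hsr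
      rcases hs0.eq_or_lt with rfl | hs0
      · simp
      · rw [zg_ofReal h, hL s hs0 hsr]
        norm_num)
    (fun y hy => h.low y (hFK y hy).1) (fun y hy => mem_sphere.1 (hFK y hy).2) hcard ht0 le_rfl
    (by linarith [ht.2]) (by
      have key : dist (x + (t : ℂ) * e) (x + (t : ℂ) * (-e)) = 2 * t := by
        rw [dist_eq_norm]
        have : x + (t : ℂ) * e - (x + (t : ℂ) * (-e)) = ((2 * t : ℝ) : ℂ) * e := by
          push_cast; ring
        rw [this, norm_mul, hen, mul_one, Complex.norm_real, Real.norm_of_nonneg (by positivity)]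
      intro y hy z hz hyz
      simp only [hF, Finset.mem_insert, Finset.mem_singleton] at hy hz
      rcases hy with rfl | rfl <;> rcases hz with rfl | rfl
      · exact absurd rfl hyz
      · rw [key]
      · rw [dist_comm, key]
      · exact absurd rfl hyz)
  set E : Finset ℂ := {e, -e} with hE
  have hEcard : E.card = 2 := Finset.card_pair hne
  have hEn : ∀ f ∈ E, ‖f‖ = 1 := by
    intro f hf
    simp only [hE, Finset.mem_insert, Finset.mem_singleton] at hf
    rcases hf with rfl | rfl
    · exact hen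
    · rw [norm_neg]; exact hen
  have h2t : 2 * t < r := by linarith [ht.2]
  have hfill := zg_fill (K := K) (x := x) (ρ := 2 * t) (E := E) h.closed h.low hEn
    ⟨e, by simp [hE]⟩ (by positivity) (by
      have h3 : ∀ᵐ (s : ℝ) ∂(volume.restrict (Ioo 0 (2 * t))), ∃ e : ℂ, ‖e‖ = 1 ∧
          K ∩ sphere x s = {x + (s : ℂ) * e, x + (s : ℂ) * (-e)} :=
        ae_restrict_of_ae_restrict_of_subset (Ioo_subset_Ioo_right h2t.le) hae
      filter_upwards [h3, ae_restrict_of_ae hrad, ae_restrict_mem measurableSet_Ioo]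
        with s hs1 hs2 hsm
      obtain ⟨f, hfn, hfs⟩ := hs1
      have hs3 := hs2 (by rw [abs_lt]; constructor <;> linarith [hsm.1, hsm.2])
      have hsc : (s : ℂ) ≠ 0 := by exact_mod_cast hsm.1.ne'
      -- f = e or f = -e
      have hf : f = e ∨ f = -e := by
        have hmem : x + (s : ℂ) * f ∈ K ∩ sphere x s := by rw [hfs]; simp
        obtain ⟨y, hy, hy2⟩ := hs3 _ hmem
        simp only [hF, Finset.mem_insert, Finset.mem_singleton] at hy
        rcases hy with rfl | rfl
        · left
          have h4 : (s : ℂ) * f = s * e := by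
            have : x + (s : ℂ) * f - x = s * f := by ring
            rw [this] at hy2
            rw [hy2]
            push_cast
            field_simp
            ring
          exact mul_left_cancel₀ hsc h4
        · right
          have h4 : (s : ℂ) * f = s * (-e) := by
            have : x + (s : ℂ) * f - x = s * f := by ring
            rw [this] at hy2
            rw [hy2]
            push_cast
            field_simp
            ring
          exact mul_left_cancel₀ hsc h4
      have hsub : ({x + (s : ℂ) * e, x + (s : ℂ) * (-e)} : Set ℂ) ⊆ K := by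
        rcases hf with rfl | rfl
        · rw [← hfs]; exact inter_subset_left
        · rw [neg_neg] at hfs
          rw [Set.pair_comm, ← hfs]
          exact inter_subset_left
      intro g hg
      simp only [hE, Finset.mem_insert, Finset.mem_singleton] at hg
      apply hsub
      rcases hg with rfl | rfl <;> simp) (by
      rw [zg_ofReal h, hL (2 * t) (by positivity) h2t.le, hEcard]
      norm_num)
  refine ⟨2 * t, by positivity, e, hen, ?_⟩
  rw [hfill]
  ext z
  constructor
  · rintro ⟨f, hf, s, hs0, hs1, rfl⟩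
    simp only [hE, Finset.mem_insert, Finset.mem_singleton] at hf
    rcases hf with rfl | rfl
    · exact ⟨s, by rwa [abs_of_nonneg hs0], rfl⟩
    · refine ⟨-s, by rwa [abs_neg, abs_of_nonneg hs0], ?_⟩
      push_cast
      ring
  · rintro ⟨s, hs, rfl⟩
    rcases le_total 0 s with h0 | h0
    · exact ⟨e, by simp [hE], s, h0, by rwa [abs_of_nonneg h0] at hs, rfl⟩
    · refine ⟨-e, by simp [hE], -s, by linarith, by rwa [abs_of_nonpos h0] at hs, ?_⟩
      push_cast
      ring

end Pool.Agent.MP099f24
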