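import Mathlib
import Pool.Agent.Lib.MP_099f24_an.ZG.Basic
import Pool.Agent.Lib.MP_099f24_an.ZG.Radial
import Pool.Agent.Lib.MP_099f24_an.ZG.Fill
import Pool.Agent.Lib.MP_099f24_an.ZG.CaseA

/-!
# Zero gradient elements, part 5: a centre with three points on almost every circle
-/

namespace Pool.Agent.MP099f24

open MeasureTheory Filter Topology Set Metric
open scoped ENNReal

variable {K : Set ℂ}

/-- The cube root of unity. -/
noncomputable def zgω : ℂ := ⟨-1 / 2, Real.sqrt 3 / 2⟩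

theorem zgω_re : zgω.re = -1 / 2 := rfl

theorem zgω_im : zgω.im = Real.sqrt 3 / 2 := rfl

theorem zgω_sq : zgω ^ 2 = -1 - zgω := by
  have h3 : Real.sqrt 3 * Real.sqrt 3 = 3 := Real.mul_self_sqrt (by norm_num)
  apply Complex.ext
  · simp only [sq, Complex.mul_re, zgω_re, zgω_im, Complex.sub_re, Complex.neg_re, Complex.one_re]
    nlinarith
  · simp only [sq, Complex.mul_im, zgω_re, zgω_im, Complex.sub_im, Complex.neg_im, Complex.one_im]
    ring

theorem zgω_cube : zgω ^ 3 = 1 := by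
  have h := zgω_sq
  linear_combination (zgω - 1) * h

theorem zgω_norm : ‖zgω‖ = 1 := by
  have h1 : ‖zgω‖ ^ 3 = 1 := by rw [← norm_pow, zgω_cube, norm_one]
  have h0 : 0 ≤ ‖zgω‖ := norm_nonneg _
  nlinarith [sq_nonneg (‖zgω‖ + 1), sq_nonneg (‖zgω‖ - 1), mul_nonneg h0 h0]

theorem zgω_ne_one : zgω ≠ 1 := by
  intro h
  have := congrArg Complex.re h
  rw [zgω_re, Complex.one_re] at this
  norm_num at this

/-- Three unit vectors with sum zero. -/
theorem zg_three_unit {a b c : ℂ} (ha : ‖a‖ = 1) (hb : ‖b‖ = 1) (hc : ‖c‖ = 1)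
    (hs : a + b + c = 0) : (b = zgω * a ∧ c = zgω ^ 2 * a) ∨ (b = zgω ^ 2 * a ∧ c = zgω * a) := by
  have ha0 : a ≠ 0 := by rintro rfl; simp at ha
  -- β = b / a
  set β : ℂ := b / a with hβ
  have hb' : b = β * a := by rw [hβ]; field_simp
  have hc' : c = (-1 - β) * a := by rw [hβ]; field_simp; linear_combination hs
  have hβ1 : ‖β‖ = 1 := by rw [hβ, norm_div, ha, hb]; norm_num
  have hγ1 : ‖-1 - β‖ = 1 := by
    have : ‖c‖ = ‖-1 - β‖ * ‖a‖ := by rw [hc', norm_mul]
    rw [hc, ha, mul_one] at this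
    exact this.symm
  have h1 : β.re ^ 2 + β.im ^ 2 = 1 := by
    have := Complex.sq_norm β
    rw [hβ1, Complex.normSq_apply] at this
    nlinarith
  have h2 : (1 + β.re) ^ 2 + β.im ^ 2 = 1 := by
    have := Complex.sq_norm (-1 - β)
    rw [hγ1, Complex.normSq_apply] at this
    simp only [Complex.sub_re, Complex.neg_re, Complex.one_re, Complex.sub_im, Complex.neg_im,
      Complex.one_im] at this
    nlinarith
  have h3 : β.re = -1 / 2 := by nlinarith
  have h4 : β.im ^ 2 = (Real.sqrt 3 / 2) ^ 2 := by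
    have := Real.sq_sqrt (show (0 : ℝ) ≤ 3 by norm_num)
    nlinarith
  have hw2 := zgω_sq
  rcases sq_eq_sq_iff_eq_or_eq_neg.1 h4 with h5 | h5
  · left
    have hβω : β = zgω := Complex.ext h3 h5
    refine ⟨by rw [hb', hβω], ?_⟩
    rw [hc', hβω, hw2]
  · right
    have hβω : β = zgω ^ 2 := by
      rw [hw2]
      apply Complex.ext
      · simp only [Complex.sub_re, Complex.neg_re, Complex.one_re, zgω_re, h3]
        norm_num
      · simp only [Complex.sub_im, Complex.neg_im, Complex.one_im, zgω_im, h5]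
        ring
    refine ⟨by rw [hb', hβω], ?_⟩
    rw [hc', hβω, hw2]
    ring

/-- First variation of the tripod at its centre. -/
theorem zg_balance {x : ℂ} {t : ℝ} (ht : 0 < t) {p q s : ℂ} (hp : dist p x = t)
    (hq : dist q x = t) (hs : dist s x = t)
    (hmin : ∀ o ∈ ball x t, 3 * t ≤ dist o p + dist o q + dist o s) :
    (p - x) + (q - x) + (s - x) = 0 := by
  -- one distance
  have one : ∀ w : ℂ, dist w x = t → ∀ v : ℂ, ∀ ε : ℝ,
      dist (x + (ε : ℂ) * v) w ≤ t - ε / t * inner ℝ v (w - x) + ε ^ 2 * ‖v‖ ^ 2 / (2 * t) := by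
    intro w hw v ε
    have h1 : ‖w - x‖ = t := by rwa [dist_eq_norm] at hw
    have h2 : dist (x + (ε : ℂ) * v) w = ‖ε • v - (w - x)‖ := by
      rw [dist_eq_norm]
      congr 1
      rw [Complex.real_smul]
      ring
    rw [h2]
    have h3 := norm_sub_sq_real (ε • v) (w - x)
    rw [h1, inner_smul_left, norm_smul] at h3
    simp only [conj_trivial, Real.norm_eq_abs, mul_pow, sq_abs] at h3
    set N := ‖ε • v - (w - x)‖ with hN
    have hN0 : 0 ≤ N := norm_nonneg _
    have h4 : N ≤ (t ^ 2 + N ^ 2) / (2 * t) := by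
      rw [le_div_iff₀ (by positivity)]
      nlinarith [sq_nonneg (N - t)]
    refine h4.trans (le_of_eq ?_)
    rw [h3]
    field_simp
    ring
  set S : ℂ := (p - x) + (q - x) + (s - x) with hS
  have key : ∀ v : ℂ, inner ℝ v S ≤ 0 := by
    intro v
    -- for small ε
    have h1 : ∀ ε : ℝ, 0 < ε → ε * ‖v‖ < t → inner ℝ v S ≤ ε * (3 * ‖v‖ ^ 2 / 2) := by
      intro ε hε hεt
      have hball : x + (ε : ℂ) * v ∈ ball x t := by
        rw [mem_ball, dist_eq_norm]
        have : x + (ε : ℂ) * v - x = (ε : ℂ) * v := by ring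
        rw [this, norm_mul, Complex.norm_real, Real.norm_of_nonneg hε.le]
        exact hεt
      have h2 := hmin _ hball
      have h3 := one p hp v ε
      have h4 := one q hq v ε
      have h5 := one s hs v ε
      have h6 : inner ℝ v S = inner ℝ v (p - x) + inner ℝ v (q - x) + inner ℝ v (s - x) := by
        rw [hS, inner_add_right, inner_add_right]
      have h7 : ε / t * inner ℝ v S ≤ 3 * (ε ^ 2 * ‖v‖ ^ 2 / (2 * t)) := by
        rw [h6]
        nlinarith
      have h8 : ε / t * inner ℝ v S ≤ ε / t * (ε * (3 * ‖v‖ ^ 2 / 2)) := by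
        refine h7.trans (le_of_eq ?_)
        field_simp
      exact le_of_mul_le_mul_left h8 (by positivity)
    by_contra hcon
    push Not at hcon
    set c := inner ℝ v S with hc
    have hv0 : 0 ≤ ‖v‖ := norm_nonneg _
    set ε : ℝ := min (t / (2 * (‖v‖ + 1))) (c / (2 * (3 * ‖v‖ ^ 2 / 2 + 1))) with hε
    have hε0 : 0 < ε := lt_min (by positivity) (by positivity)
    have h2 : ε * ‖v‖ < t := by
      have h3 : ε ≤ t / (2 * (‖v‖ + 1)) := min_le_left _ _
      have h4 : ε * ‖v‖ ≤ t / (2 * (‖v‖ + 1)) * ‖v‖ := by gcongr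
      have h5 : t / (2 * (‖v‖ + 1)) * ‖v‖ < t := by
        rw [div_mul_eq_mul_div, div_lt_iff₀ (by positivity)]
        nlinarith
      linarith
    have h3 := h1 ε hε0 h2
    have h4 : ε * (3 * ‖v‖ ^ 2 / 2) < c := by
      have h5 : ε ≤ c / (2 * (3 * ‖v‖ ^ 2 / 2 + 1)) := min_le_right _ _
      have h6 : ε * (3 * ‖v‖ ^ 2 / 2) ≤ c / (2 * (3 * ‖v‖ ^ 2 / 2 + 1)) * (3 * ‖v‖ ^ 2 / 2) := by
        gcongr
      have h7 : c / (2 * (3 * ‖v‖ ^ 2 / 2 + 1)) * (3 * ‖v‖ ^ 2 / 2) < c := by
        rw [div_mul_eq_mul_div, div_lt_iff₀ (by positivity)]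
        nlinarith [sq_nonneg ‖v‖]
      linarith
    linarith
  have h1 := key S
  rw [real_inner_self_eq_norm_sq] at h1
  have h2 : ‖S‖ ^ 2 = 0 := le_antisymm h1 (sq_nonneg _)
  simpa using h2

/-- The set of directions of a propeller. -/
noncomputable def zgTri (e : ℂ) : Finset ℂ := {e, zgω * e, zgω ^ 2 * e}

theorem zgTri_norm {e : ℂ} (he : ‖e‖ = 1) : ∀ f ∈ zgTri e, ‖f‖ = 1 := by
  intro f hf
  simp only [zgTri, Finset.mem_insert, Finset.mem_singleton] at hf
  rcases hf with rfl | rfl | rfl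
  · exact he
  · rw [norm_mul, zgω_norm, he, one_mul]
  · rw [norm_mul, norm_pow, zgω_norm, he]; norm_num

theorem zgω_sq_ne_one : zgω ^ 2 ≠ 1 := by
  intro h
  rw [zgω_sq] at h
  have := congrArg Complex.re h
  simp only [Complex.sub_re, Complex.neg_re, Complex.one_re, zgω_re] at this
  norm_num at this

theorem zgTri_card {e : ℂ} (he : ‖e‖ = 1) : (zgTri e).card = 3 := by
  have he0 : e ≠ 0 := by rintro rfl; simp at he
  have hω0 : zgω ≠ 0 := by
    intro h
    have := zgω_norm
    rw [h] at this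
    simp at this
  have h1 : e ≠ zgω * e := by
    intro h
    have : (zgω - 1) * e = 0 := by linear_combination -h
    rcases mul_eq_zero.1 this with h2 | h2
    · exact zgω_ne_one (sub_eq_zero.1 h2)
    · exact he0 h2
  have h2 : e ≠ zgω ^ 2 * e := by
    intro h
    have : (zgω ^ 2 - 1) * e = 0 := by linear_combination -h
    rcases mul_eq_zero.1 this with h2 | h2
    · exact zgω_sq_ne_one (sub_eq_zero.1 h2)
    · exact he0 h2
  have h3 : zgω * e ≠ zgω ^ 2 * e := by
    intro h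
    have : zgω * ((zgω - 1) * e) = 0 := by linear_combination -h
    rcases mul_eq_zero.1 this with h2 | h2
    · exact hω0 h2
    rcases mul_eq_zero.1 h2 with h2 | h2
    · exact zgω_ne_one (sub_eq_zero.1 h2)
    · exact he0 h2
  exact Finset.card_eq_three.2 ⟨e, zgω * e, zgω ^ 2 * e, h1, h2, h3, rfl⟩

end Pool.Agent.MP099f24
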