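import Mathlib
import Pool.Agent.Lib.MP_099f24_an.ZG.CaseB

/-!
# Zero gradient elements, part 6: the propeller
-/

namespace Pool.Agent.MP099f24

open MeasureTheory Filter Topology Set Metric
open scoped ENNReal

variable {K : Set ℂ}

theorem zg_exists_of_ae {P : ℝ → Prop} {a b : ℝ} (hab : a < b)
    (h : ∀ᵐ (s : ℝ), a < s → s < b → P s) : ∃ s, a < s ∧ s < b ∧ P s := by
  by_contra hcon
  push Not at hcon
  have h1 : volume (Ioo a b) = 0 := by
    refine measure_mono_null (fun t ht => ?_) (ae_iff.1 h)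
    simp only [mem_ofPred_eq, Classical.not_imp]
    exact ⟨ht.1, ht.2, hcon t ht.1 ht.2⟩
  rw [Real.volume_Ioo] at h1
  simp at h1
  linarith

theorem zgω_dist : ‖(1 : ℂ) - zgω‖ = Real.sqrt 3 := by
  have h3 : Real.sqrt 3 ^ 2 = 3 := Real.sq_sqrt (by norm_num)
  have h1 : ‖(1 : ℂ) - zgω‖ ^ 2 = Real.sqrt 3 ^ 2 := by
    rw [Complex.sq_norm, Complex.normSq_apply]
    simp only [Complex.sub_re, Complex.one_re, zgω_re, Complex.sub_im, Complex.one_im, zgω_im]
    nlinarith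
  exact (pow_left_inj₀ (norm_nonneg _) (Real.sqrt_nonneg _) two_ne_zero).1 h1

theorem zgTri_sep {e f g : ℂ} (he : ‖e‖ = 1) (hf : f ∈ zgTri e) (hg : g ∈ zgTri e) (hfg : f ≠ g) :
    ‖f - g‖ = Real.sqrt 3 := by
  have hω := zgω_norm
  have h1 := zgω_dist
  have hc := zgω_cube
  have key1 : ‖e - zgω * e‖ = Real.sqrt 3 := by
    have : e - zgω * e = (1 - zgω) * e := by ring
    rw [this, norm_mul, he, mul_one, h1]
  have key2 : ‖zgω * e - zgω ^ 2 * e‖ = Real.sqrt 3 := by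
    have : zgω * e - zgω ^ 2 * e = zgω * ((1 - zgω) * e) := by ring
    rw [this, norm_mul, norm_mul, he, mul_one, h1, hω, one_mul]
  have key3 : ‖e - zgω ^ 2 * e‖ = Real.sqrt 3 := by
    have : e - zgω ^ 2 * e = -(zgω ^ 2 * ((1 - zgω) * e)) := by linear_combination (-e) * hc
    rw [this, norm_neg, norm_mul, norm_mul, norm_pow, he, mul_one, h1, hω]
    norm_num
  simp only [zgTri, Finset.mem_insert, Finset.mem_singleton] at hf hg
  rcases hf with rfl | rfl | rfl <;> rcases hg with rfl | rfl | rfl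
  · exact absurd rfl hfg
  · exact key1
  · exact key3
  · rw [norm_sub_rev]; exact key1
  · exact absurd rfl hfg
  · exact key2
  · rw [norm_sub_rev]; exact key3
  · rw [norm_sub_rev]; exact key2
  · exact absurd rfl hfg

/-- The circle of radius `s` about `x` meets `K` exactly in the three points with directions `zgTri e`. -/
def ZGTri (K : Set ℂ) (x e : ℂ) (s : ℝ) : Prop :=
  K ∩ sphere x s = (fun f : ℂ => x + (s : ℂ) * f) '' (zgTri e : Set ℂ)

theorem zg_three_good (h : ZGData K) {x : ℂ} (hx : x ∈ K)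
    (hL : ∀ r : ℝ, 0 < r → zl K x r = 3 * r)
    (hae : ∀ R : ℝ, ∀ᵐ s ∂(volume.restrict (Ioo 0 R)),
      ∃ p q t : ℂ, p ≠ q ∧ q ≠ t ∧ p ≠ t ∧ K ∩ sphere x s = {p, q, t}) :
    ∀ᵐ (s : ℝ), 0 < s → ∃ e : ℂ, ‖e‖ = 1 ∧ ZGTri K x e s := by
  have h1 : ∀ n : ℕ, ∀ᵐ (s : ℝ), s ∈ Ioo 0 (n : ℝ) →
      ∃ p q t : ℂ, p ≠ q ∧ q ≠ t ∧ p ≠ t ∧ K ∩ sphere x s = {p, q, t} := fun n =>
    (ae_restrict_iff' measurableSet_Ioo).1 (hae n)
  filter_upwards [ae_all_iff.2 h1] with s hs hs0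
  obtain ⟨n, hn⟩ := exists_nat_gt s
  obtain ⟨p, q, t, hpq, hqt, hpt, he⟩ := hs n ⟨hs0, hn⟩
  have hp : p ∈ K ∩ sphere x s := by rw [he]; simp
  have hq : q ∈ K ∩ sphere x s := by rw [he]; simp
  have ht : t ∈ K ∩ sphere x s := by rw [he]; simp
  have hmin : ∀ o ∈ ball x s, 3 * s ≤ dist o p + dist o q + dist o t := by
    intro o ho
    have := h.net3 x hx s hs0 p q t hpq hqt hpt he o ho
    rw [zg_ofReal h, hL s hs0] at this
    exact (ENNReal.ofReal_le_ofReal_iff (by positivity)).1 this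
  have hbal := zg_balance hs0 (mem_sphere.1 hp.2) (mem_sphere.1 hq.2) (mem_sphere.1 ht.2) hmin
  have hsc : (s : ℂ) ≠ 0 := by exact_mod_cast hs0.ne'
  have hunit : ∀ w ∈ sphere x s, ‖(w - x) / s‖ = 1 := by
    intro w hw
    have h8 : ‖w - x‖ = s := by
      have := mem_sphere.1 hw
      rwa [dist_eq_norm] at this
    rw [norm_div, h8, Complex.norm_real, Real.norm_of_nonneg hs0.le, div_self hs0.ne']
  have hsum : (p - x) / s + (q - x) / s + (t - x) / s = 0 := by
    rw [← add_div, ← add_div, hbal, zero_div]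
  refine ⟨(p - x) / s, hunit p hp.2, ?_⟩
  have hpe : p = x + (s : ℂ) * ((p - x) / s) := by field_simp; ring
  have hqe : q = x + (s : ℂ) * ((q - x) / s) := by field_simp; ring
  have hte : t = x + (s : ℂ) * ((t - x) / s) := by field_simp; ring
  rw [ZGTri, he]
  rcases zg_three_unit (hunit p hp.2) (hunit q hq.2) (hunit t ht.2) hsum with ⟨h2, h3⟩ | ⟨h2, h3⟩
  · rw [h2] at hqe
    rw [h3] at hte
    simp only [zgTri, Finset.coe_insert, Finset.coe_singleton, image_insert_eq, image_singleton]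
    rw [← hpe, ← hqe, ← hte]
  · rw [h2] at hqe
    rw [h3] at hte
    simp only [zgTri, Finset.coe_insert, Finset.coe_singleton, image_insert_eq, image_singleton]
    rw [← hpe, ← hqe, ← hte]
    rw [Set.pair_comm]

theorem zg_tri_local (h : ZGData K) {x : ℂ} (hL : ∀ r : ℝ, 0 < r → zl K x r = 3 * r)
    (hgood : ∀ᵐ (s : ℝ), 0 < s → ∃ e : ℂ, ‖e‖ = 1 ∧ ZGTri K x e s) {t : ℝ} (ht : 0 < t) {e : ℂ}
    (he : ‖e‖ = 1) (hte : ZGTri K x e t) :
    ∀ᵐ (s : ℝ), t / 4 < s → s < 7 * t / 4 → ZGTri K x e s := by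
  have htc : (t : ℂ) ≠ 0 := by exact_mod_cast ht.ne'
  classical
  set F : Finset ℂ := (zgTri e).image (fun f : ℂ => x + (t : ℂ) * f) with hF
  have hinj : Function.Injective (fun f : ℂ => x + (t : ℂ) * f) := by
    intro f g hfg
    exact mul_left_cancel₀ htc (add_left_cancel hfg)
  have hFK : ∀ y ∈ F, y ∈ K ∩ sphere x t := by
    intro y hy
    rw [hte]
    simpa [hF] using hy
  have hcard : F.card = 3 := by
    rw [hF, Finset.card_image_of_injective _ hinj, zgTri_card he]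
  have h3 : (1.5 : ℝ) ≤ Real.sqrt 3 := by
    rw [show (1.5 : ℝ) = Real.sqrt (1.5 ^ 2) by rw [Real.sqrt_sq (by norm_num)]]
    exact Real.sqrt_le_sqrt (by norm_num)
  have hrad := zg_radial (K := K) (x := x) (R := 2 * t) (t := t) (ρ₀ := 3 * t / 4) (c := 3) (F := F)
    h.closed.measurableSet (by
      intro s hs0 hsr
      rcases hs0.eq_or_lt with rfl | hs0
      · simp
      · rw [zg_ofReal h, hL s hs0]
        norm_num)
    (fun y hy => h.low y (hFK y hy).1) (fun y hy => mem_sphere.1 (hFK y hy).2) hcard ht (by linarith)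
    (by linarith) (by
      intro y hy z hz hyz
      simp only [hF, Finset.mem_image] at hy hz
      obtain ⟨f, hf, rfl⟩ := hy
      obtain ⟨g, hg, rfl⟩ := hz
      have hfg : f ≠ g := by rintro rfl; exact hyz rfl
      rw [dist_eq_norm]
      have : x + (t : ℂ) * f - (x + (t : ℂ) * g) = (t : ℂ) * (f - g) := by ring
      rw [this, norm_mul, Complex.norm_real, Real.norm_of_nonneg ht.le, zgTri_sep he hf hg hfg]
      nlinarith)
  filter_upwards [hrad, hgood] with s hs1 hs2 hs3 hs4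
  have hs0 : 0 < s := by linarith
  have hsc : (s : ℂ) ≠ 0 := by exact_mod_cast hs0.ne'
  obtain ⟨g, hg, hgs⟩ := hs2 hs0
  have hs5 := hs1 (by rw [abs_lt]; constructor <;> linarith)
  -- K ∩ sphere x s ⊆ image
  have hsub : K ∩ sphere x s ⊆ (fun f : ℂ => x + (s : ℂ) * f) '' (zgTri e : Set ℂ) := by
    intro z hz
    obtain ⟨y, hy, hyz⟩ := hs5 z hz
    simp only [hF, Finset.mem_image] at hy
    obtain ⟨f, hf, rfl⟩ := hy
    refine ⟨f, hf, ?_⟩
    have h4 : x + (t : ℂ) * f - x = t * f := by ring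
    rw [h4] at hyz
    have h5 : ((s / t : ℝ) : ℂ) * (t * f) = s * f := by push_cast; field_simp
    rw [h5] at hyz
    linear_combination -hyz
  have hinjs : Function.Injective (fun f : ℂ => x + (s : ℂ) * f) := by
    intro f g hfg
    exact mul_left_cancel₀ hsc (add_left_cancel hfg)
  have hn1 : (K ∩ sphere x s).ncard = 3 := by
    rw [hgs, Set.ncard_image_of_injective _ hinjs, Set.ncard_coe_finset, zgTri_card hg]
  have hn2 : ((fun f : ℂ => x + (s : ℂ) * f) '' (zgTri e : Set ℂ)).ncard = 3 := by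
    rw [Set.ncard_image_of_injective _ hinjs, Set.ncard_coe_finset, zgTri_card he]
  have hfin : ((fun f : ℂ => x + (s : ℂ) * f) '' (zgTri e : Set ℂ)).Finite :=
    ((zgTri e).finite_toSet).image _
  exact Set.eq_of_subset_of_ncard_le hsub (by rw [hn1, hn2]) hfin

theorem zg_tri_step (h : ZGData K) {x : ℂ} (hL : ∀ r : ℝ, 0 < r → zl K x r = 3 * r)
    (hgood : ∀ᵐ (s : ℝ), 0 < s → ∃ e : ℂ, ‖e‖ = 1 ∧ ZGTri K x e s) {a b : ℝ} (ha : 0 < a)
    (hab : a < b) {e : ℂ} (he : ‖e‖ = 1) (hae : ∀ᵐ (s : ℝ), a < s → s < b → ZGTri K x e s) :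
    ∀ᵐ (s : ℝ), a / 2 < s → s < 3 * b / 2 → ZGTri K x e s := by
  have hb : 0 < b := ha.trans hab
  obtain ⟨t₁, h11, h12, h13⟩ := zg_exists_of_ae (P := ZGTri K x e) (a := max a (9 / 10 * b)) (b := b)
    (max_lt hab (by linarith)) (by
      filter_upwards [hae] with s hs h1 h2 using hs ((le_max_left _ _).trans_lt h1) h2)
  obtain ⟨t₂, h21, h22, h23⟩ := zg_exists_of_ae (P := ZGTri K x e) (a := a) (b := min b (11 / 10 * a))
    (lt_min hab (by linarith)) (by
      filter_upwards [hae] with s hs h1 h2 using hs h1 (h2.trans_le (min_le_left _ _)))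
  have h14 : 9 / 10 * b < t₁ := (le_max_right _ _).trans_lt h11
  have h24 : t₂ < 11 / 10 * a := h22.trans_le (min_le_right _ _)
  have hl1 := zg_tri_local h hL hgood (show 0 < t₁ by linarith) he h13
  have hl2 := zg_tri_local h hL hgood (show 0 < t₂ by linarith) he h23
  filter_upwards [hae, hl1, hl2] with s hs hs1 hs2 h1 h2
  rcases le_or_gt s a with h3 | h3
  · exact hs2 (by linarith) (by linarith)
  rcases lt_or_ge s b with h4 | h4
  · exact hs h3 h4
  · exact hs1 (by linarith) (by linarith)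

theorem zg_propeller (h : ZGData K) {x : ℂ} (hx : x ∈ K)
    (hL : ∀ r : ℝ, 0 < r → zl K x r = 3 * r)
    (hae : ∀ R : ℝ, ∀ᵐ s ∂(volume.restrict (Ioo 0 R)),
      ∃ p q t : ℂ, p ≠ q ∧ q ≠ t ∧ p ≠ t ∧ K ∩ sphere x s = {p, q, t}) :
    ∃ e : ℂ, ‖e‖ = 1 ∧ K = {z | ∃ f ∈ zgTri e, ∃ s : ℝ, 0 ≤ s ∧ z = x + (s : ℂ) * f} := by
  have hgood := zg_three_good h hx hL hae
  obtain ⟨t, ht0, -, e, he, hte⟩ := zg_exists_of_ae (P := fun s => ∃ e : ℂ, ‖e‖ = 1 ∧ ZGTri K x e s)
    (a := 0) (b := 1) one_pos (by filter_upwards [hgood] with s hs h1 _ using hs h1)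
  have hbase := zg_tri_local h hL hgood ht0 he hte
  have hind : ∀ n : ℕ, ∀ᵐ (s : ℝ), t / 2 * (1 / 2) ^ n < s → s < 3 * t / 2 * (3 / 2) ^ n →
      ZGTri K x e s := by
    intro n
    induction n with
    | zero =>
      filter_upwards [hbase] with s hs h1 h2
      rw [pow_zero, mul_one] at h1 h2
      exact hs (by linarith) (by linarith)
    | succ n ih =>
      have hlt : t / 2 * (1 / 2) ^ n < 3 * t / 2 * (3 / 2) ^ n := by
        have h1 : (1 / 2 : ℝ) ^ n ≤ 1 := pow_le_one₀ (by norm_num) (by norm_num)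
        have h2 : (1 : ℝ) ≤ (3 / 2) ^ n := one_le_pow₀ (by norm_num)
        nlinarith
      have h1 := zg_tri_step h hL hgood (by positivity) hlt he ih
      filter_upwards [h1] with s hs h2 h3
      rw [pow_succ] at h2 h3
      exact hs (by linarith) (by linarith)
  have hall : ∀ᵐ (s : ℝ), 0 < s → ZGTri K x e s := by
    filter_upwards [ae_all_iff.2 hind] with s hs hs0
    have h1 : Tendsto (fun n : ℕ => t / 2 * (1 / 2 : ℝ) ^ n) atTop (𝓝 (t / 2 * 0)) :=
      (tendsto_pow_atTop_nhds_zero_of_lt_one (by norm_num) (by norm_num)).const_mul _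
    rw [mul_zero] at h1
    have h2 : Tendsto (fun n : ℕ => 3 * t / 2 * (3 / 2 : ℝ) ^ n) atTop atTop :=
      (tendsto_pow_atTop_atTop_of_one_lt (by norm_num)).const_mul_atTop (by positivity)
    obtain ⟨n, hn1, hn2⟩ := ((h1.eventually (gt_mem_nhds hs0)).and
      (h2.eventually_gt_atTop s)).exists
    exact hs n hn1 hn2
  refine ⟨e, he, ?_⟩
  have hball : ∀ ρ : ℝ, 0 < ρ → K ∩ ball x ρ =
      {z | ∃ f ∈ zgTri e, ∃ s : ℝ, 0 ≤ s ∧ s < ρ ∧ z = x + (s : ℂ) * f} := by
    intro ρ hρ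
    refine zg_fill h.closed h.low (zgTri_norm he) ⟨e, by simp [zgTri]⟩ hρ ?_ ?_
    · filter_upwards [ae_restrict_of_ae hall, ae_restrict_mem measurableSet_Ioo] with s hs hsm f hf
      have h1 := hs hsm.1
      have h2 : x + (s : ℂ) * f ∈ K ∩ sphere x s := by
        rw [h1]
        exact ⟨f, hf, rfl⟩
      exact h2.1
    · rw [zg_ofReal h, hL ρ hρ, zgTri_card he]
      norm_num
  ext z
  constructor
  · intro hz
    have h1 : z ∈ K ∩ ball x (dist z x + 1) := ⟨hz, by rw [mem_ball]; linarith⟩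
    rw [hball _ (by positivity)] at h1
    obtain ⟨f, hf, s, hs0, -, rfl⟩ := h1
    exact ⟨f, hf, s, hs0, rfl⟩
  · rintro ⟨f, hf, s, hs0, rfl⟩
    have h1 : x + (s : ℂ) * f ∈ K ∩ ball x (s + 1) := by
      rw [hball _ (by positivity)]
      exact ⟨f, hf, s, hs0, by linarith, rfl⟩
    exact h1.1

end Pool.Agent.MP099f24
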