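import Mathlib
import Pool.Agent.Lib.MP_099f24_an.ZG.CaseB2

/-!
# Zero gradient elements, part 7: line or propeller
-/

namespace Pool.Agent.MP099f24

open MeasureTheory Filter Topology Set Metric
open scoped ENNReal

variable {K : Set ℂ}

/-- Near `x` the set `K` is a segment in direction `e`. -/
def ZGSeg (K : Set ℂ) (x e : ℂ) : Prop :=
  ∃ ρ : ℝ, 0 < ρ ∧ K ∩ ball x ρ = {z | ∃ s : ℝ, |s| < ρ ∧ z = x + (s : ℂ) * e}

theorem zgSeg_mem {x e : ℂ} (h : ZGSeg K x e) : x ∈ K := by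
  obtain ⟨ρ, hρ, he⟩ := h
  have : x ∈ K ∩ ball x ρ := by
    rw [he]
    exact ⟨0, by simpa using hρ, by simp⟩
  exact this.1

/-- Two directions at the same point. -/
theorem zgSeg_unique {x e f : ℂ} (he : ‖e‖ = 1) (hf : ‖f‖ = 1) (h1 : ZGSeg K x e)
    (h2 : ∃ᶠ s : ℝ in 𝓝[≠] 0, x + (s : ℂ) * f ∈ K) : f = e ∨ f = -e := by
  obtain ⟨ρ, hρ, hK⟩ := h1
  have h3 : ∀ᶠ s : ℝ in 𝓝[≠] 0, |s| < ρ := by
    refine nhdsWithin_le_nhds ?_
    filter_upwards [Metric.ball_mem_nhds (0 : ℝ) hρ] with s hs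
    simpa using hs
  obtain ⟨s, ⟨hs1, hs2⟩, hs3⟩ := ((h2.and_eventually h3).and_eventually
    (self_mem_nhdsWithin : ({0}ᶜ : Set ℝ) ∈ 𝓝[≠] 0)).exists
  have hs0 : s ≠ 0 := hs3
  have hmem : x + (s : ℂ) * f ∈ K ∩ ball x ρ := by
    refine ⟨hs1, ?_⟩
    rw [mem_ball, dist_eq_norm]
    have : x + (s : ℂ) * f - x = (s : ℂ) * f := by ring
    rw [this, norm_mul, hf, mul_one, Complex.norm_real]
    exact hs2
  rw [hK] at hmem
  obtain ⟨t, ht, hst⟩ := hmem
  have h4 : (s : ℂ) * f = t * e := add_left_cancel hst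
  have h5 : |s| = |t| := by
    have := congrArg norm h4
    rwa [norm_mul, norm_mul, hf, he, mul_one, mul_one, Complex.norm_real, Complex.norm_real] at this
  have hsc : (s : ℂ) ≠ 0 := by exact_mod_cast hs0
  rcases abs_eq_abs.1 h5 with h6 | h6
  · left
    rw [h6] at h4 hsc
    exact mul_left_cancel₀ hsc h4
  · right
    have h7 : t = -s := by linarith
    rw [h7] at h4
    push_cast at h4
    have : (s : ℂ) * f = s * (-e) := by rw [h4]; ring
    exact mul_left_cancel₀ hsc this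

/-- If `K` is a segment near each of its points, it contains the full lines. -/
theorem zg_full_line (hK : IsClosed K) (hseg : ∀ x ∈ K, ∃ e : ℂ, ‖e‖ = 1 ∧ ZGSeg K x e) {x e : ℂ}
    (he : ‖e‖ = 1) (hxe : ZGSeg K x e) : ∀ t : ℝ, ZGSeg K (x + (t : ℂ) * e) e := by
  have hcont : Continuous (fun t : ℝ => x + (t : ℂ) * e) := by fun_prop
  set T : Set ℝ := {t | ZGSeg K (x + (t : ℂ) * e) e} with hT
  have hopen : IsOpen T := by
    rw [Metric.isOpen_iff]
    rintro t ⟨ρ, hρ, hKρ⟩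
    refine ⟨ρ, hρ, fun t' ht' => ?_⟩
    rw [mem_ball, Real.dist_eq] at ht'
    have hd : dist (x + (t' : ℂ) * e) (x + (t : ℂ) * e) = |t' - t| := by
      rw [(zg_ray_isometry x he).dist_eq, Real.dist_eq]
    refine ⟨ρ - |t' - t|, by linarith, ?_⟩
    ext z
    constructor
    · rintro ⟨hz1, hz2⟩
      rw [mem_ball] at hz2
      have h1 : z ∈ K ∩ ball (x + (t : ℂ) * e) ρ := by
        refine ⟨hz1, ?_⟩
        rw [mem_ball]
        have := dist_triangle z (x + (t' : ℂ) * e) (x + (t : ℂ) * e)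
        linarith
      rw [hKρ] at h1
      obtain ⟨s, hs, rfl⟩ := h1
      refine ⟨s - (t' - t), ?_, by push_cast; ring⟩
      have h2 : dist (x + (t : ℂ) * e + (s : ℂ) * e) (x + (t' : ℂ) * e) = |s - (t' - t)| := by
        have : x + (t : ℂ) * e + (s : ℂ) * e = x + ((t + s : ℝ) : ℂ) * e := by push_cast; ring
        rw [this, (zg_ray_isometry x he).dist_eq, Real.dist_eq]
        congr 1
        ring
      linarith
    · rintro ⟨s, hs, rfl⟩
      have h0 : x + (t' : ℂ) * e + (s : ℂ) * e = x + (t : ℂ) * e + ((t' - t + s : ℝ) : ℂ) * e := by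
        push_cast; ring
      have h1 : |t' - t + s| < ρ := by
        have := abs_add_le (t' - t) s
        linarith
      have h2 : x + (t' : ℂ) * e + (s : ℂ) * e ∈ K ∩ ball (x + (t : ℂ) * e) ρ := by
        rw [hKρ, h0]
        exact ⟨_, h1, rfl⟩
      refine ⟨h2.1, ?_⟩
      rw [mem_ball, dist_eq_norm]
      have : x + (t' : ℂ) * e + (s : ℂ) * e - (x + (t' : ℂ) * e) = (s : ℂ) * e := by ring
      rw [this, norm_mul, he, mul_one, Complex.norm_real]
      exact hs
  have hclosed : IsClosed T := by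
    rw [← isOpen_compl_iff, isOpen_iff_mem_nhds]
    intro t ht
    by_contra hcon
    apply ht
    -- t is a limit of points of T
    have h1 : ∃ᶠ s in 𝓝 t, s ∈ T := by
      intro h2
      exact hcon h2
    have h2 : ∃ᶠ s in 𝓝[≠] t, s ∈ T := by
      rw [frequently_nhdsWithin_iff]
      refine h1.mono fun s hs => ⟨hs, ?_⟩
      rintro rfl
      exact ht hs
    have hxt : x + (t : ℂ) * e ∈ K := by
      have h3 : t ∈ closure ((fun t : ℝ => x + (t : ℂ) * e) ⁻¹' K) := by
        rw [mem_closure_iff_frequently]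
        exact h1.mono fun s hs => zgSeg_mem hs
      rwa [(hK.preimage hcont).closure_eq] at h3
    obtain ⟨f, hf, hseg'⟩ := hseg _ hxt
    have h3 : ∃ᶠ s : ℝ in 𝓝[≠] 0, x + (t : ℂ) * e + (s : ℂ) * e ∈ K := by
      have hmap : map (fun s : ℝ => s - t) (𝓝[≠] t) = 𝓝[≠] 0 := by
        have h4 := (Homeomorph.subRight t).isEmbedding.map_nhdsWithin_eq ({t}ᶜ) t
        simp only [Homeomorph.coe_subRight, sub_self] at h4
        rw [h4]
        congr 1
        ext y
        simp only [mem_image, mem_compl_iff, mem_singleton_iff]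
        constructor
        · rintro ⟨z, hz, rfl⟩ h5
          exact hz (by linarith)
        · intro hy
          exact ⟨y + t, fun h5 => hy (by linarith), by ring⟩
      rw [← hmap, frequently_map]
      refine h2.mono fun s hs => ?_
      have h5 := zgSeg_mem hs
      have : x + (t : ℂ) * e + ((s - t : ℝ) : ℂ) * e = x + (s : ℂ) * e := by push_cast; ring
      rw [this]
      exact h5
    rcases zgSeg_unique hf he hseg' h3 with rfl | h4
    · exact hseg'
    · obtain ⟨ρ, hρ, hKρ⟩ := hseg'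
      refine ⟨ρ, hρ, ?_⟩
      rw [hKρ]
      ext z
      constructor
      · rintro ⟨s, hs, rfl⟩
        refine ⟨-s, by rwa [abs_neg], ?_⟩
        rw [h4]; push_cast; ring
      · rintro ⟨s, hs, rfl⟩
        refine ⟨-s, by rwa [abs_neg], ?_⟩
        rw [h4]; push_cast; ring
  have huniv : T = univ := by
    refine IsClopen.eq_univ ⟨hclosed, hopen⟩ ⟨0, ?_⟩
    show ZGSeg K (x + ((0 : ℝ) : ℂ) * e) e
    simpa using hxe
  intro t
  have : t ∈ T := by rw [huniv]; trivial
  exact this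

theorem zg_core (h : ZGData K) (hne : K.Nonempty) :
    (∃ x e : ℂ, ‖e‖ = 1 ∧ K = {z | ∃ s : ℝ, z = x + (s : ℂ) * e}) ∨
    (∃ x e : ℂ, ‖e‖ = 1 ∧ K = {z | ∃ f ∈ zgTri e, ∃ s : ℝ, 0 ≤ s ∧ z = x + (s : ℂ) * f}) := by
  by_cases hB : ∃ x ∈ K, (∀ r : ℝ, 0 < r → zl K x r = 3 * r) ∧
      ∀ R : ℝ, ∀ᵐ s ∂(volume.restrict (Ioo 0 R)),
      ∃ p q t : ℂ, p ≠ q ∧ q ≠ t ∧ p ≠ t ∧ K ∩ sphere x s = {p, q, t}
  · obtain ⟨x, hx, hL, hae⟩ := hB
    obtain ⟨e, he, hK⟩ := zg_propeller h hx hL hae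
    exact Or.inr ⟨x, e, he, hK⟩
  left
  have hseg : ∀ x ∈ K, ∃ e : ℂ, ‖e‖ = 1 ∧ ZGSeg K x e := by
    intro x hx
    rcases zg_dichotomy h hx with ⟨r, hr, p, q, hpq, he⟩ | h2
    · obtain ⟨ρ, hρ, e, he1, he2⟩ := zg_line_local h hx hr hpq he
      exact ⟨e, he1, ρ, hρ, he2⟩
    · exact absurd ⟨x, hx, h2⟩ hB
  obtain ⟨x, hx⟩ := hne
  obtain ⟨e, he, hxe⟩ := hseg x hx
  have hline := zg_full_line h.closed hseg he hxe
  refine ⟨x, e, he, Subset.antisymm ?_ ?_⟩
  swap
  · rintro z ⟨s, rfl⟩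
    exact zgSeg_mem (hline s)
  intro z hz
  by_contra hzl
  obtain ⟨f, hf, hzf⟩ := hseg z hz
  have hline2 := zg_full_line h.closed hseg hf hzf
  set d := dist z x with hd
  have hd0 : 0 ≤ d := dist_nonneg
  set r : ℝ := 2 * d + 1 with hr
  have hr0 : 0 < r := by positivity
  -- two segments
  set A : Set ℂ := (fun s : ℝ => x + (s : ℂ) * e) '' Ioo (-r) r with hA
  set B : Set ℂ := (fun s : ℝ => z + (s : ℂ) * f) '' Ioo (-(r - d)) (r - d) with hB'
  have hAm := zg_ray_meas x he (-r) r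
  have hBm := zg_ray_meas z hf (-(r - d)) (r - d)
  have hAμ : (μH[1] : Measure ℂ) A = ENNReal.ofReal (2 * r) := by
    rw [hA, zg_ray_measure x he]
    congr 1
    ring
  have hBμ : (μH[1] : Measure ℂ) B = ENNReal.ofReal (2 * (r - d)) := by
    rw [hB', zg_ray_measure z hf]
    congr 1
    ring
  have hAK : A ⊆ K ∩ ball x r := by
    rintro _ ⟨s, hs, rfl⟩
    refine ⟨zgSeg_mem (hline s), ?_⟩
    rw [mem_ball, dist_eq_norm]
    have : x + (s : ℂ) * e - x = (s : ℂ) * e := by ring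
    show ‖x + (s : ℂ) * e - x‖ < r
    rw [this, norm_mul, he, mul_one, Complex.norm_real]
    exact abs_lt.2 hs
  have hBK : B ⊆ K ∩ ball x r := by
    rintro _ ⟨s, hs, rfl⟩
    refine ⟨zgSeg_mem (hline2 s), ?_⟩
    rw [mem_ball]
    have h1 : dist (z + (s : ℂ) * f) z < r - d := by
      rw [dist_eq_norm]
      have : z + (s : ℂ) * f - z = (s : ℂ) * f := by ring
      rw [this, norm_mul, hf, mul_one, Complex.norm_real]
      exact abs_lt.2 hs
    have := dist_triangle (z + (s : ℂ) * f) z x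
    show dist (z + (s : ℂ) * f) x < r
    linarith
  -- the intersection has at most one point
  have hAB : (A ∩ B).Subsingleton := by
    rintro w ⟨⟨s, hs, hsw⟩, ⟨t, ht, htw⟩⟩ w' ⟨⟨s', hs', hsw'⟩, ⟨t', ht', htw'⟩⟩
    by_contra hww
    simp only at hsw htw hsw' htw'
    have h1 : (s - s' : ℂ) * e = (t - t') * f := by
      have e1 : x + (s : ℂ) * e = z + (t : ℂ) * f := hsw.trans htw.symm
      have e2 : x + (s' : ℂ) * e = z + (t' : ℂ) * f := hsw'.trans htw'.symm
      linear_combination e1 - e2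
    have ht2 : (t - t' : ℂ) ≠ 0 := by
      intro h2
      apply hww
      rw [← htw, ← htw']
      have : (t : ℂ) = t' := sub_eq_zero.1 h2
      rw [this]
    apply hzl
    refine ⟨s - t * ((s - s') / (t - t')), ?_⟩
    have h3 : f = ((s - s') / (t - t')) * e := by
      field_simp
      linear_combination -h1
    have h4 : z = x + (s : ℂ) * e - t * f := by
      have e1 : x + (s : ℂ) * e = z + (t : ℂ) * f := hsw.trans htw.symm
      linear_combination -e1
    rw [h4, h3]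
    push_cast
    ring
  have hnull : (μH[1] : Measure ℂ) (A ∩ B) = 0 := by
    have : NullSingletonClass (μH[1] : Measure ℂ) :=
      Measure.nullSingletonClass_hausdorff ℂ one_pos
    exact hAB.measure_zero _
  have h1 : (μH[1] : Measure ℂ) A + (μH[1] : Measure ℂ) B ≤ (μH[1] : Measure ℂ) (K ∩ ball x r) := by
    rw [← measure_union_add_inter A hBm, hnull, add_zero]
    exact measure_mono (union_subset hAK hBK)
  rw [hAμ, hBμ, zg_ofReal h, ← ENNReal.ofReal_add (by positivity) (by linarith)] at h1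
  have h2 := (ENNReal.ofReal_le_ofReal_iff (zg_nonneg x r)).1 h1
  have h3 := zg_le3 h hx hr0
  linarith

end Pool.Agent.MP099f24
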